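import Pool.Agent.Run7.h282.KS.Main

/-!
# MP_31c4fb_co, Q1 (partial): `N(n,k) ≤ N(m,k)` for all `n` and all `m > k (k - 1)`

`Phi n k a` is the number of permutations `π` of the `k` indices such that the `k` sums `a (π i) + i` are
different modulo `n`, and `N n k` its minimum over all vectors `a` (`Pool/Agent/Run7/h282/KS/Main.lean`).

Proof: as `m > k (k - 1)`, after a translation no `a_u` lies in the `k - 1` residues `-1, .., -(k - 1)`; then
every equality `a_u + i = a_v + j` modulo `m` with `0 ≤ i, j < k` holds for the least nonnegative
representatives, hence modulo every `n`.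
-/

set_option autoImplicit false

namespace Pool.Agent.Results.MP_31c4fb_co.LargeModulus

/-- `N(n,k) ≤ N(m,k)` for all `n` and all `m > k (k - 1)`. -/
theorem result : ∀ n m k : ℕ, k * (k - 1) < m → Run7.h282.KS.N n k ≤ Run7.h282.KS.N m k :=
  fun n m k h => Run7.h282.KS.mono_n n m k h

end Pool.Agent.Results.MP_31c4fb_co.LargeModulus
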